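import Mathlib
import Pool.Agent.V11146.Mex

set_option autoImplicit false

namespace Pool.Agent.Results.MP_79ff05_co.Supersat

open Finset SimpleGraph Pool.Agent.V11146.Sample

lemma main (r s : ℕ) (hs : 3 ≤ s) (hsr : s ≤ r) (ε : ℝ) (hε : 0 < ε) :
    ∃ δ : ℝ, 0 < δ ∧ ∃ m₀ : ℕ, ∀ (n : ℕ) (G : SimpleGraph (Fin n)), m₀ ≤ G.edgeSet.ncard →
      (mex s (r + 1) G.edgeSet.ncard : ℝ) + ε * (G.edgeSet.ncard : ℝ) ^ ((s : ℝ) / 2) ≤
        (cliqueCount G s : ℝ) →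
      δ * (G.edgeSet.ncard : ℝ) ^ (((r : ℝ) + 1) / 2) ≤ (cliqueCount G (r + 1) : ℝ) := by
  classical
  set F : ℝ := (s.factorial : ℝ) with hF
  have hF0 : 0 < F := by rw [hF]; exact_mod_cast Nat.factorial_pos s
  set L := Lam s (r + 1) with hL
  have hL0 : 0 ≤ L := Lam_nonneg s (r + 1) (by omega) (by omega)
  have hs0 : (0:ℝ) < s := by
    have : 0 < s := by omega
    exact_mod_cast this
  set ε₁ : ℝ := F * ε / 2 with hε₁
  have hε₁0 : 0 < ε₁ := by positivity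
  set ε₃ : ℝ := ε₁ ^ 2 with hε₃
  have hε₃0 : 0 < ε₃ := by positivity
  set ε₂ : ℝ := min 1 ε₁ with hε₂
  have hε₂0 : 0 < ε₂ := lt_min one_pos hε₁0
  have hε₂1 : ε₂ ≤ 1 := min_le_left _ _
  have hε₂' : ε₂ ≤ ε₁ := min_le_right _ _
  set η : ℝ := min 1 (ε₁ / (2 * s)) with hη
  have hη0 : 0 < η := lt_min one_pos (by positivity)
  have hη1 : η ≤ 1 := min_le_left _ _
  have hη2 : 2 * s * η ≤ ε₁ := by
    have := min_le_right 1 (ε₁ / (2 * s))
    rw [← hη, le_div_iff₀ (by positivity)] at this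
    linarith
  set Q : ℝ := (2 / η) ^ (2 * s) with hQ
  have hQ0 : 0 < Q := by positivity
  set P : ℝ := (2:ℝ) ^ s with hP
  have hP0 : 0 < P := by positivity
  obtain ⟨m₁, hm₁⟩ := mex_lower s (r + 1) (by omega) (by omega) (ε₃ / (4 * P)) (by positivity)
  rw [← hL, ← hF] at hm₁
  set K : ℝ := 2 * (s:ℝ) ^ 2 * (L * P + ε₃) + 4 * (s:ℝ) ^ 2 * (L * Q) with hK
  obtain ⟨M₀, hM₀⟩ := exists_nat_ge (K * 4 / ε₃)
  set M : ℕ := M₀ + s ^ 2 + 1 with hM
  have hMs : s ^ 2 ≤ M := by omega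
  have hMpos : 0 < M := by omega
  have hMr : (0:ℝ) < M := by exact_mod_cast hMpos
  have hKM : K / M ≤ ε₃ / 4 := by
    rw [div_le_iff₀ hMr]
    rw [div_le_iff₀ hε₃0] at hM₀
    have h1 : (M₀:ℝ) ≤ M := by
      have : M₀ ≤ M := by omega
      exact_mod_cast this
    have h2 : (M₀:ℝ) * ε₃ ≤ M * ε₃ := mul_le_mul_of_nonneg_right h1 hε₃0.le
    linarith only [h2, hM₀]
  set F' : ℝ := ((r + 1).factorial : ℝ) with hF'
  have hF'0 : 0 < F' := by rw [hF']; exact_mod_cast Nat.factorial_pos (r+1)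
  set D : ℝ := (M:ℝ) ^ (r + 1) * F' / ε₂ ^ (r + 1) * Q with hD
  have hD0 : 0 < D := by positivity
  refine ⟨(ε₃ / 8) / D, by positivity, m₁ + 1, ?_⟩
  intro n G hm hG
  by_contra hcon
  push Not at hcon
  set m := G.edgeSet.ncard with hmd
  set R := Real.sqrt (m:ℝ) with hR
  have hm1 : (1:ℝ) ≤ m := by
    have : 1 ≤ m := by omega
    exact_mod_cast this
  have hR0 : 0 < R := Real.sqrt_pos.mpr (by linarith)
  have hRR : R ^ 2 = m := Real.sq_sqrt (by linarith)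
  have hpow : ∀ k : ℕ, (m:ℝ) ^ ((k:ℝ) / 2) = R ^ k := by
    intro k
    rw [hR, Real.sqrt_eq_rpow, ← Real.rpow_natCast, ← Real.rpow_mul (by linarith)]
    congr 1
    ring
  rw [hpow s] at hG
  have hpow' : (m:ℝ) ^ (((r:ℝ) + 1) / 2) = R ^ (r + 1) := by
    have := hpow (r + 1)
    push_cast at this
    exact this
  rw [hpow'] at hcon
  have hW : oc G 2 = 2 * R ^ 2 := by rw [oc_two_edges, hRR]
  have hX : F * (mex s (r + 1) m : ℝ) + 2 * ε₁ * R ^ s ≤ oc G s := by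
    rw [oc_eq_factorial, ← hF]
    have := mul_le_mul_of_nonneg_left hG hF0.le
    have e1 : 2 * ε₁ * R ^ s = F * (ε * R ^ s) := by rw [hε₁]; ring
    rw [e1, ← mul_add]
    exact this
  -- truncation
  have hτ : 0 ≤ η * R := by positivity
  have htr := trunc G s (by omega) (η * R) hτ
  have hhi := card_high G (η * R)
  set G' := G.comap (Subtype.val : {v : Fin n // η * R ≤ (G.degree v : ℝ)} → Fin n) with hG'
  set N : ℝ := (Fintype.card {v : Fin n // η * R ≤ (G.degree v : ℝ)} : ℝ) with hN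
  set Y := oc G' s with hY
  have hsm : s * ((η * R) ^ (s - 2) * oc G 2) ≤ ε₁ * R ^ s := by
    have e1 : s * ((η * R) ^ (s - 2) * oc G 2) = (2 * s * η ^ (s - 2)) * R ^ s := by
      have : R ^ s = R ^ (s - 2) * R ^ 2 := by rw [← pow_add]; congr 1; omega
      rw [hW, this, mul_pow]
      ring
    rw [e1]
    apply mul_le_mul_of_nonneg_right _ (by positivity)
    have e2 : η ^ (s - 2) ≤ η := by
      have : s - 2 = (s - 3) + 1 := by omega
      rw [this, pow_succ]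
      have h1 : η ^ (s - 3) ≤ 1 := pow_le_one₀ hη0.le hη1
      calc η ^ (s - 3) * η ≤ 1 * η := mul_le_mul_of_nonneg_right h1 hη0.le
        _ = η := one_mul η
    have e3 : 2 * s * η ^ (s - 2) ≤ 2 * s * η := mul_le_mul_of_nonneg_left e2 (by positivity)
    linarith
  have hmex0 : (0:ℝ) ≤ F * (mex s (r + 1) m : ℝ) := by positivity
  have hY1 : F * (mex s (r + 1) m : ℝ) + ε₁ * R ^ s ≤ Y := by linarith
  have hRs : 0 < R ^ s := by positivity
  have hYpos : 0 < Y := by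
    have : 0 < ε₁ * R ^ s := by positivity
    linarith
  have hYN : Y ≤ N ^ s := oc_le G' s
  have hN0 : 0 ≤ N := by rw [hN]; positivity
  have hNpos : 0 < N := by
    rcases hN0.eq_or_lt with h0 | h0
    · rw [← h0, zero_pow (by omega)] at hYN
      linarith
    · exact h0
  have hne : Nonempty {v : Fin n // η * R ≤ (G.degree v : ℝ)} := by
    rw [← Fintype.card_pos_iff]
    rw [hN] at hNpos
    exact_mod_cast hNpos
  have hNup : N ≤ 2 / η * R := by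
    rw [hW] at hhi
    have e1 : N * η ≤ 2 * R := by
      have e0 : (N * η) * R ≤ (2 * R) * R := by
        calc (N * η) * R = N * (η * R) := by ring
          _ ≤ 2 * R ^ 2 := hhi
          _ = (2 * R) * R := by ring
      exact le_of_mul_le_mul_right e0 hR0
    rw [div_mul_eq_mul_div, le_div_iff₀ hη0]
    exact e1
  have hNlow : ε₂ * R ≤ N := by
    by_contra hlt
    push Not at hlt
    have e1 : N ^ s ≤ (ε₂ * R) ^ s := pow_le_pow_left₀ hN0 hlt.le s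
    have e1' : N ^ s < (ε₂ * R) ^ s := pow_lt_pow_left₀ hlt hN0 (by omega)
    have e2 : (ε₂ * R) ^ s ≤ ε₁ * R ^ s := by
      rw [mul_pow]
      apply mul_le_mul_of_nonneg_right _ hRs.le
      have : s = (s - 1) + 1 := by omega
      rw [this, pow_succ]
      have h1 : ε₂ ^ (s - 1) ≤ 1 := pow_le_one₀ hε₂0.le hε₂1
      calc ε₂ ^ (s - 1) * ε₂ ≤ 1 * ε₂ := mul_le_mul_of_nonneg_right h1 hε₂0.le
        _ ≤ ε₁ := by rw [one_mul]; exact hε₂'
    exact absurd (lt_of_lt_of_le e1' e2) (not_lt.mpr (le_trans (by linarith only [hY1, hmex0]) hYN))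
  have hkey := key G' s r M hMpos hMs L hL0 (fun K' hK' => le_Lam s (r + 1) (by omega) K' hK')
  rw [← hY, ← hN] at hkey
  have hNs : (0:ℝ) < N ^ (2 * s) := by positivity
  have hkey2 : (1 - (s:ℝ) ^ 2 / M) ^ 2 * Y ^ 2 ≤
      L * (oc G' 2 ^ s + ((s * 2 : ℕ) : ℝ) ^ 2 / M * N ^ (2 * s)) +
      (M : ℝ) ^ (r + 1) * (oc G' (r + 1) / N ^ (r + 1)) * N ^ (2 * s) := by
    have := mul_le_mul_of_nonneg_right hkey hNs.le
    have e1 : (1 - (s:ℝ) ^ 2 / M) ^ 2 * (Y / N ^ s) ^ 2 * N ^ (2 * s) =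
        (1 - (s:ℝ) ^ 2 / M) ^ 2 * Y ^ 2 := by
      have : N ^ (2 * s) = (N ^ s) ^ 2 := by rw [← pow_mul, mul_comm]
      rw [this]
      field_simp
    have e2 : (oc G' 2 / N ^ 2) ^ s * N ^ (2 * s) = oc G' 2 ^ s := by
      rw [div_pow, ← pow_mul]
      field_simp
    rw [e1] at this
    refine this.trans (le_of_eq ?_)
    rw [add_mul, mul_assoc, add_mul, e2]
  have b1 : oc G' 2 ^ s ≤ P * R ^ (2 * s) := by
    have e1 : oc G' 2 ≤ 2 * R ^ 2 := by
      rw [← hW]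
      exact oc_comap_le G _ Subtype.val_injective 2
    calc oc G' 2 ^ s ≤ (2 * R ^ 2) ^ s := pow_le_pow_left₀ (oc_nonneg _ _) e1 s
      _ = P * R ^ (2 * s) := by rw [mul_pow, ← pow_mul]
  have b2 : N ^ (2 * s) ≤ Q * R ^ (2 * s) := by
    calc N ^ (2 * s) ≤ (2 / η * R) ^ (2 * s) := pow_le_pow_left₀ hN0 hNup _
      _ = _ := by rw [mul_pow]
  have b3 : oc G' (r + 1) / N ^ (r + 1) ≤ F' * ((ε₃ / 8) / D) / ε₂ ^ (r + 1) := by
    have e1 : oc G' (r + 1) ≤ F' * ((ε₃ / 8) / D * R ^ (r + 1)) := by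
      refine (oc_comap_le G _ Subtype.val_injective (r + 1)).trans ?_
      rw [oc_eq_factorial, ← hF']
      exact mul_le_mul_of_nonneg_left hcon.le hF'0.le
    have e2 : (ε₂ * R) ^ (r + 1) ≤ N ^ (r + 1) := pow_le_pow_left₀ (by positivity) hNlow _
    have e3 : 0 < (ε₂ * R) ^ (r + 1) := by positivity
    calc oc G' (r + 1) / N ^ (r + 1) ≤ oc G' (r + 1) / (ε₂ * R) ^ (r + 1) :=
          div_le_div_of_nonneg_left (oc_nonneg _ _) e3 e2
      _ ≤ (F' * ((ε₃ / 8) / D * R ^ (r + 1))) / (ε₂ * R) ^ (r + 1) :=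
          div_le_div_of_nonneg_right e1 e3.le
      _ = _ := by
          rw [mul_pow]
          field_simp
  have hR2s : 0 < R ^ (2 * s) := by positivity
  have b4 : (M : ℝ) ^ (r + 1) * (oc G' (r + 1) / N ^ (r + 1)) * N ^ (2 * s) ≤
      (ε₃ / 8) * R ^ (2 * s) := by
    calc (M : ℝ) ^ (r + 1) * (oc G' (r + 1) / N ^ (r + 1)) * N ^ (2 * s) ≤
        (M : ℝ) ^ (r + 1) * (F' * ((ε₃ / 8) / D) / ε₂ ^ (r + 1)) * (Q * R ^ (2 * s)) := by
          apply mul_le_mul _ b2 hNs.le (by positivity)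
          exact mul_le_mul_of_nonneg_left b3 (by positivity)
      _ = (D * ((ε₃ / 8) / D)) * R ^ (2 * s) := by rw [hD]; ring
      _ = _ := by rw [mul_div_cancel₀ _ hD0.ne']
  have b5 : (L * P + 3 * ε₃ / 4) * R ^ (2 * s) ≤ Y ^ 2 := by
    have e1 := hm₁ m (by omega)
    have e2 : (2 * (m:ℝ)) ^ s = P * R ^ (2 * s) := by
      rw [← hRR, mul_pow, ← pow_mul]
    rw [e2] at e1
    have e3 : (L - ε₃ / (4 * P)) * (P * R ^ (2 * s)) = (L * P - ε₃ / 4) * R ^ (2 * s) := by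
      field_simp
    rw [e3] at e1
    have e4 : (F * (mex s (r + 1) m : ℝ) + ε₁ * R ^ s) ^ 2 ≤ Y ^ 2 :=
      pow_le_pow_left₀ (by positivity) hY1 2
    have e5 : (ε₁ * R ^ s) ^ 2 = ε₃ * R ^ (2 * s) := by
      rw [mul_pow, ← pow_mul, mul_comm s 2]
    have e6 : 0 ≤ (F * (mex s (r + 1) m : ℝ)) * (ε₁ * R ^ s) := by positivity
    have e7 : (F * (mex s (r + 1) m : ℝ) + ε₁ * R ^ s) ^ 2 = (F * (mex s (r + 1) m : ℝ)) ^ 2 +
        2 * ((F * (mex s (r + 1) m : ℝ)) * (ε₁ * R ^ s)) + (ε₁ * R ^ s) ^ 2 := by ring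
    rw [e7, e5] at e4
    have e8 : (L * P + 3 * ε₃ / 4) * R ^ (2 * s) = (L * P - ε₃ / 4) * R ^ (2 * s) +
        ε₃ * R ^ (2 * s) := by ring
    rw [e8]
    linarith only [e1, e4, e6]
  -- final contradiction
  set x : ℝ := (s:ℝ) ^ 2 / M with hx
  have hx0 : 0 ≤ x := by positivity
  have c1 : (1 - 2 * x) * ((L * P + 3 * ε₃ / 4) * R ^ (2 * s)) ≤ (1 - x) ^ 2 * Y ^ 2 := by
    have e1 : (1 - 2 * x) * ((L * P + 3 * ε₃ / 4) * R ^ (2 * s)) ≤
        (1 - x) ^ 2 * ((L * P + 3 * ε₃ / 4) * R ^ (2 * s)) := by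
      apply mul_le_mul_of_nonneg_right _ (by positivity)
      have e0 : (1 - x) ^ 2 = 1 - 2 * x + x ^ 2 := by ring
      rw [e0]
      linarith only [sq_nonneg x]
    exact e1.trans (mul_le_mul_of_nonneg_left b5 (sq_nonneg _))
  have c2 : L * (oc G' 2 ^ s + ((s * 2 : ℕ) : ℝ) ^ 2 / M * N ^ (2 * s)) ≤
      L * (P * R ^ (2 * s) + 4 * x * (Q * R ^ (2 * s))) := by
    apply mul_le_mul_of_nonneg_left _ hL0
    apply add_le_add b1
    have e1 : ((s * 2 : ℕ) : ℝ) ^ 2 / M = 4 * x := by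
      rw [hx]; push_cast; ring
    rw [e1]
    exact mul_le_mul_of_nonneg_left b2 (by positivity)
  have c3 : (1 - 2 * x) * ((L * P + 3 * ε₃ / 4) * R ^ (2 * s)) ≤
      L * (P * R ^ (2 * s) + 4 * x * (Q * R ^ (2 * s))) + (ε₃ / 8) * R ^ (2 * s) := by
    linarith
  have c4 : (1 - 2 * x) * (L * P + 3 * ε₃ / 4) ≤ L * P + 4 * x * (L * Q) + ε₃ / 8 := by
    have e1 : ((1 - 2 * x) * (L * P + 3 * ε₃ / 4)) * R ^ (2 * s) ≤
        (L * P + 4 * x * (L * Q) + ε₃ / 8) * R ^ (2 * s) := by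
      calc _ = (1 - 2 * x) * ((L * P + 3 * ε₃ / 4) * R ^ (2 * s)) := by ring
        _ ≤ _ := c3
        _ = _ := by ring
    exact le_of_mul_le_mul_right e1 hR2s
  have c5 : 2 * x * (L * P + ε₃) + 4 * x * (L * Q) = K / M := by
    rw [hx, hK]; ring
  have c6 : 2 * x * (L * P + 3 * ε₃ / 4) ≤ 2 * x * (L * P + ε₃) := by
    apply mul_le_mul_of_nonneg_left _ (by positivity)
    linarith only [hε₃0]
  have c7 : (1 - 2 * x) * (L * P + 3 * ε₃ / 4) =
      L * P + 3 * ε₃ / 4 - 2 * x * (L * P + 3 * ε₃ / 4) := by ring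
  rw [c7] at c4
  linarith only [c4, c5, c6, hKM, hε₃0]

/-- Supersaturation for clique counts in graphs with a fixed number of edges: for all
`r ≥ s ≥ 3` and `ε > 0` there are `δ > 0` and `m₀` such that every graph `G` with
`e(G) = m ≥ m₀` and `k_s(G) ≥ mex_{K_s}(m, K_{r+1}) + ε m^{s/2}` has at least
`δ m^{(r+1)/2}` copies of `K_{r+1}`. The first part confirms that `mex` is a genuine maximum. -/
theorem result :
    (∀ r s m : ℕ, 3 ≤ s → s ≤ r → IsGreatest (mexSet s (r + 1) m) (mex s (r + 1) m)) ∧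
    (∀ r s : ℕ, 3 ≤ s → s ≤ r → ∀ ε : ℝ, 0 < ε →
    ∃ δ : ℝ, 0 < δ ∧ ∃ m₀ : ℕ, ∀ (n : ℕ) (G : SimpleGraph (Fin n)), m₀ ≤ G.edgeSet.ncard →
      (mex s (r + 1) G.edgeSet.ncard : ℝ) + ε * (G.edgeSet.ncard : ℝ) ^ ((s : ℝ) / 2) ≤
        (cliqueCount G s : ℝ) →
      δ * (G.edgeSet.ncard : ℝ) ^ (((r : ℝ) + 1) / 2) ≤ (cliqueCount G (r + 1) : ℝ)) := by
  refine ⟨?_, fun r s hs hsr ε hε => main r s hs hsr ε hε⟩
  intro r s m hs hsr
  classical
  have hbdd := bddAbove_mexSet s (r + 1) m (by omega)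
  have hne : (mexSet s (r + 1) m).Nonempty := by
    -- `m` disjoint edges
    let H : SimpleGraph (Fin 0) := ⊥
    obtain ⟨e⟩ : Nonempty (Fin (Fintype.card ((Fin 0 × Fin 0) ⊕ (Fin m × Bool))) ≃
        ((Fin 0 × Fin 0) ⊕ (Fin m × Bool))) := ⟨(Fintype.equivFin _).symm⟩
    refine ⟨cliqueCount ((big H 0 m).comap e) s, _, (big H 0 m).comap e, ?_, ?_, rfl⟩
    · have h1 : oc ((big H 0 m).comap e) 2 = 2 * (m:ℝ) := by
        rw [edges_congr, big_oc_two]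
        simp
      rw [oc_two_edges] at h1
      have h3 : ((((big H 0 m).comap e).edgeSet.ncard : ℕ) : ℝ) = ((m : ℕ) : ℝ) := by linarith
      exact_mod_cast h3
    · have h1 : (big H 0 m).CliqueFree (r + 1) := by
        apply big_cliqueFree H 0 m (r + 1) (by omega)
        rw [V11146.Sample.cliqueFree_iff]
        intro f _
        exact (f 0).elim0
      rw [V11146.Sample.cliqueFree_iff] at h1 ⊢
      intro f hf
      exact h1 (fun a => e (f a)) hf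
  exact ⟨Nat.sSup_mem hne hbdd, fun c hc => le_csSup hbdd hc⟩

end Pool.Agent.Results.MP_79ff05_co.Supersat
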